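import Pool.Agent.H98.KS.Targets4

/-!
# MP_ff41bc_an: lower bound for the average of the number of lattice points
-/

open scoped BigOperators

noncomputable section

namespace Pool.Agent.H33.KS

open Pool.Agent.H98.KS

namespace L4

theorem finite_pw (k d l : ℕ) (hk : 1 ≤ k) : {y : Fin d → ℤ | pw k y = l}.Finite := by
  refine Set.Finite.subset (Finset.finite_toSet (Fintype.piFinset
    fun _ : Fin d => Finset.Icc (-(l : ℤ)) l)) fun y hy => ?_
  rw [Finset.mem_coe, Fintype.mem_piFinset]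
  intro i
  have h1 : (y i).natAbs ^ k ≤ l := by
    have h2 : pw k y = l := hy
    rw [← h2]
    exact Finset.single_le_sum (f := fun i => (y i).natAbs ^ k) (fun _ _ => Nat.zero_le _)
      (Finset.mem_univ i)
  have h2 : (y i).natAbs ≤ l := (Nat.le_self_pow (by omega) _).trans h1
  rw [Finset.mem_Icc]
  omega

theorem count_le (k d m : ℕ) (hk : 1 ≤ k) (U : Finset (Fin d → ℕ)) :
    (U.filter fun u => ∑ i, u i ^ k = m).card ≤ NN k d m := by
  classical
  have hinj : Function.Injective fun (u : Fin d → ℕ) (i : Fin d) => (u i : ℤ) := by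
    intro u v h
    funext i
    have h1 : (u i : ℤ) = v i := congrFun h i
    exact_mod_cast h1
  rw [← Finset.card_image_of_injective _ hinj, ← Set.ncard_coe_finset]
  refine Set.ncard_le_ncard ?_ (finite_pw k d m hk)
  intro y hy
  rw [Finset.mem_coe, Finset.mem_image] at hy
  obtain ⟨u, hu, rfl⟩ := hy
  have h1 := (Finset.mem_filter.1 hu).2
  show pw k _ = m
  rw [← h1]
  unfold pw
  simp only [Int.natAbs_natCast]

theorem avg_ge (k d l W J : ℕ) (hk : 1 ≤ k) (hJ : J * W ≤ l) (U : Finset (Fin d → ℕ))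
    (hU : ∀ u ∈ U, ∃ q ≤ J, ∑ i, u i ^ k = l + q * W) :
    (U.card : ℝ) ≤ (2 * (J : ℝ) + 1) * AvN k d l W J := by
  classical
  have h1 : U.card ≤ ∑ j ∈ Finset.range (2 * J + 1), NN k d (l - J * W + j * W) := by
    have h2 : U ⊆ (Finset.range (2 * J + 1)).biUnion fun j =>
        U.filter fun u => ∑ i, u i ^ k = l - J * W + j * W := by
      intro u hu
      obtain ⟨q, hq, e⟩ := hU u hu
      rw [Finset.mem_biUnion]
      refine ⟨J + q, Finset.mem_range.2 (by omega), Finset.mem_filter.2 ⟨hu, ?_⟩⟩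
      rw [e, add_mul]
      omega
    exact (Finset.card_le_card h2).trans (Finset.card_biUnion_le.trans
      (Finset.sum_le_sum fun j _ => count_le k d _ hk U))
  unfold AvN
  rw [← mul_assoc, mul_one_div_cancel (by positivity), one_mul]
  exact_mod_cast h1

/-- difference of powers -/
theorem pow_diff (k : ℕ) (ρ u : ℝ) (h0 : 0 ≤ ρ) (h : ρ ≤ u) :
    u ^ (k + 1) ≤ ρ ^ (k + 1) + (k + 1) * (u - ρ) * u ^ k := by
  have hu : 0 ≤ u := h0.trans h
  induction k with
  | zero => simp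
  | succ k ih =>
    have h1 : ρ ^ (k + 1) ≤ u ^ (k + 1) := pow_le_pow_left₀ h0 h _
    have h2 := mul_le_mul_of_nonneg_left ih hu
    have h3 := mul_le_mul_of_nonneg_left h1 (sub_nonneg.2 h)
    calc u ^ (k + 1 + 1) = u * u ^ (k + 1) := by ring
      _ ≤ u * (ρ ^ (k + 1) + (k + 1) * (u - ρ) * u ^ k) := h2
      _ = ρ ^ (k + 1 + 1) + (u - ρ) * ρ ^ (k + 1) + (k + 1) * (u - ρ) * u ^ (k + 1) := by ring
      _ ≤ ρ ^ (k + 1 + 1) + (u - ρ) * u ^ (k + 1) + (k + 1) * (u - ρ) * u ^ (k + 1) := by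
          linarith
      _ = ρ ^ (k + 1 + 1) + ((k + 1 : ℕ) + 1) * (u - ρ) * u ^ (k + 1) := by
          push_cast; ring

/-- the last coordinate -/
theorem last_coord (k l W J B s r : ℕ) (L : ℝ) (hW : 1 ≤ W) (hs : s < W) (hr : r ≤ l)
    (hL0 : 0 ≤ L) (hL : L ^ (k + 1) = l) (hB1 : (W : ℝ) * B ≤ L)
    (hB2 : ((k : ℝ) + 1) * B * (2 * L) ^ k ≤ J) :
    ∃ b0 : ℕ, r ≤ (s + W * b0) ^ (k + 1) ∧ ∀ t < B, (s + W * (b0 + t)) ^ (k + 1) ≤ r + J * W := by
  classical
  have hex : ∃ b : ℕ, r ≤ (s + W * b) ^ (k + 1) := by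
    refine ⟨r, le_trans ?_ (Nat.le_self_pow (by omega) _)⟩
    nlinarith
  refine ⟨Nat.find hex, Nat.find_spec hex, fun t ht => ?_⟩
  have hmin := fun {m} => Nat.find_min hex (m := m)
  generalize Nat.find hex = b0 at hmin
  -- the real root of `r`
  set ρ : ℝ := (r : ℝ) ^ (1 / ((k : ℝ) + 1)) with hρ
  have hk1 : (k : ℝ) + 1 ≠ 0 := by positivity
  have hρ0 : 0 ≤ ρ := by positivity
  have hρk : ρ ^ (k + 1) = r := by
    rw [hρ, ← Real.rpow_natCast, ← Real.rpow_mul (Nat.cast_nonneg r)]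
    push_cast
    rw [one_div_mul_cancel hk1, Real.rpow_one]
  have hρL : ρ ≤ L := by
    refine le_of_pow_le_pow_left₀ (n := k + 1) (by omega) hL0 ?_
    rw [hρk, hL]
    exact_mod_cast hr
  have hz : ((s + W * (b0 + t) : ℕ) : ℝ) ≤ ρ + W * B := by
    have htB : (t : ℝ) + 1 ≤ B := by exact_mod_cast ht
    have hW0 : (0 : ℝ) ≤ W := Nat.cast_nonneg W
    have h3 := mul_le_mul_of_nonneg_left htB hW0
    have hsW : (s : ℝ) ≤ W := by exact_mod_cast hs.le
    rcases Nat.eq_zero_or_pos b0 with h0 | h0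
    · subst h0
      push_cast
      linarith
    · obtain ⟨b, rfl⟩ : ∃ b, b0 = b + 1 := ⟨b0 - 1, by omega⟩
      have h4 := hmin (m := b) (by omega)
      rw [not_le] at h4
      have h5 : ((s + W * b : ℕ) : ℝ) ≤ ρ := by
        refine le_of_pow_le_pow_left₀ (n := k + 1) (by omega) hρ0 ?_
        rw [hρk]
        exact_mod_cast h4.le
      push_cast at h5 ⊢
      linarith
  have h1 : ((s + W * (b0 + t) : ℕ) : ℝ) ^ (k + 1) ≤ r + J * W := by
    have hWB : (0 : ℝ) ≤ W * B := by positivity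
    have h2 := pow_le_pow_left₀ (Nat.cast_nonneg (s + W * (b0 + t))) hz (k + 1)
    have h3 := pow_diff k ρ (ρ + W * B) hρ0 (by linarith)
    rw [hρk, add_sub_cancel_left] at h3
    have h4 : (ρ + W * B) ^ k ≤ (2 * L) ^ k := pow_le_pow_left₀ (by positivity) (by linarith) k
    have h5 : ((k : ℝ) + 1) * (W * B) * (ρ + W * B) ^ k ≤
        ((k : ℝ) + 1) * (W * B) * (2 * L) ^ k := mul_le_mul_of_nonneg_left h4 (by positivity)
    have h6 : ((k : ℝ) + 1) * (W * B) * (2 * L) ^ k ≤ J * W := by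
      have := mul_le_mul_of_nonneg_right hB2 (Nat.cast_nonneg (α := ℝ) W)
      calc ((k : ℝ) + 1) * (W * B) * (2 * L) ^ k = ((k : ℝ) + 1) * B * (2 * L) ^ k * W := by ring
        _ ≤ J * W := this
    linarith
  exact_mod_cast h1

/-- the counting -/
theorem counting (k n l W J A B : ℕ) (L : ℝ) (hW : 1 ≤ W) (hJ : J * W ≤ l)
    (hL0 : 0 ≤ L) (hL : L ^ (k + 1) = l) (hA : ((n : ℝ) + 1) * W * A ≤ L)
    (hB1 : (W : ℝ) * B ≤ L) (hB2 : ((k : ℝ) + 1) * B * (2 * L) ^ k ≤ J) :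
    ((LS (k + 1) (n + 1) W l * A ^ n * B : ℕ) : ℝ) ≤
      (2 * (J : ℝ) + 1) * AvN (k + 1) (n + 1) l W J := by
  classical
  set S : Finset (Fin (n + 1) → ℕ) :=
    (Fintype.piFinset (fun _ : Fin (n + 1) => Finset.range W)).filter
      (fun s => (∑ i, s i ^ (k + 1)) ≡ l [MOD W]) with hS
  have hSW : ∀ s ∈ S, ∀ i, s i < W := fun s hs i =>
    Finset.mem_range.1 (Fintype.mem_piFinset.1 (Finset.mem_filter.1 hs).1 i)
  -- the sum of the first coordinates
  let q : (Fin (n + 1) → ℕ) → (Fin n → ℕ) → ℕ := fun s a =>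
    ∑ i : Fin n, (s i.castSucc + W * a i) ^ (k + 1)
  have hq : ∀ s ∈ S, ∀ a ∈ Fintype.piFinset (fun _ : Fin n => Finset.range A), q s a ≤ l := by
    intro s hs a ha
    have h1 : ∀ i : Fin n, ((s i.castSucc + W * a i : ℕ) : ℝ) ^ (k + 1) ≤ l / ((n : ℝ) + 1) := by
      intro i
      have h2 : ((s i.castSucc + W * a i : ℕ) : ℝ) ≤ L / ((n : ℝ) + 1) := by
        have h3 : s i.castSucc + W * a i ≤ W * A := by
          have h4 := hSW s hs i.castSucc
          have h5 : a i + 1 ≤ A := Finset.mem_range.1 (Fintype.mem_piFinset.1 ha i)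
          nlinarith
        have h6 : ((s i.castSucc + W * a i : ℕ) : ℝ) ≤ (W : ℝ) * A := by exact_mod_cast h3
        rw [le_div_iff₀ (by positivity)]
        nlinarith
      have h7 := pow_le_pow_left₀ (Nat.cast_nonneg _) h2 (k + 1)
      refine h7.trans ?_
      rw [div_pow, hL]
      refine div_le_div_of_nonneg_left (Nat.cast_nonneg l) (by positivity) ?_
      exact le_self_pow₀ (by linarith [(Nat.cast_nonneg n : (0 : ℝ) ≤ n)]) (by omega)
    have h8 : ((q s a : ℕ) : ℝ) ≤ l := by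
      show ((∑ i : Fin n, (s i.castSucc + W * a i) ^ (k + 1) : ℕ) : ℝ) ≤ l
      rw [Nat.cast_sum]
      calc ∑ i : Fin n, (((s i.castSucc + W * a i) ^ (k + 1) : ℕ) : ℝ)
          ≤ ∑ _i : Fin n, (l : ℝ) / ((n : ℝ) + 1) :=
            Finset.sum_le_sum fun i _ => by
              rw [Nat.cast_pow]
              exact h1 i
        _ = n * (l / ((n : ℝ) + 1)) := by simp
        _ ≤ l := by
            rw [mul_div_assoc', div_le_iff₀ (by positivity)]
            have : (0 : ℝ) ≤ l := Nat.cast_nonneg l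
            nlinarith
    exact_mod_cast h8
  -- the last coordinate
  have hb : ∀ (s0 r : ℕ), ∃ b0 : ℕ, s0 < W → r ≤ l → r ≤ (s0 + W * b0) ^ (k + 1) ∧
      ∀ t < B, (s0 + W * (b0 + t)) ^ (k + 1) ≤ r + J * W := by
    intro s0 r
    by_cases h1 : s0 < W
    · by_cases h2 : r ≤ l
      · obtain ⟨b0, h3⟩ := last_coord k l W J B s0 r L hW h1 h2 hL0 hL hB1 hB2
        exact ⟨b0, fun _ _ => h3⟩
      · exact ⟨0, fun _ h => absurd h h2⟩
    · exact ⟨0, fun h => absurd h h1⟩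
  choose b0 hb0 using hb
  let Φ : ((Fin (n + 1) → ℕ) × (Fin n → ℕ)) × ℕ → (Fin (n + 1) → ℕ) := fun p =>
    Fin.snoc (α := fun _ => ℕ) (fun i => p.1.1 i.castSucc + W * p.1.2 i)
      (p.1.1 (Fin.last n) + W * (b0 (p.1.1 (Fin.last n)) (l - q p.1.1 p.1.2) + p.2))
  set P := (S ×ˢ Fintype.piFinset (fun _ : Fin n => Finset.range A)) ×ˢ Finset.range B with hP
  have hinj : Set.InjOn Φ P := by
    rintro ⟨⟨s, a⟩, t⟩ h1 ⟨⟨s', a'⟩, t'⟩ h2 h
    rw [Finset.mem_coe, hP, Finset.mem_product, Finset.mem_product] at h1 h2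
    have e : ∀ x y x' y' : ℕ, x < W → x' < W → x + W * y = x' + W * y' → x = x' ∧ y = y' := by
      intro x y x' y' hx hx' hxy
      have g1 := congrArg (· % W) hxy
      simp only [Nat.add_mul_mod_self_left, Nat.mod_eq_of_lt hx, Nat.mod_eq_of_lt hx'] at g1
      subst g1
      refine ⟨rfl, ?_⟩
      have g2 : W * y = W * y' := by omega
      exact Nat.eq_of_mul_eq_mul_left (by omega) g2
    have e1 : ∀ i : Fin n, s i.castSucc = s' i.castSucc ∧ a i = a' i := by
      intro i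
      have g := congrFun h i.castSucc
      simp only [Φ, Fin.snoc_castSucc] at g
      exact e _ _ _ _ (hSW s h1.1.1 _) (hSW s' h2.1.1 _) g
    have e2 := congrFun h (Fin.last n)
    simp only [Φ, Fin.snoc_last] at e2
    obtain ⟨e3, e4⟩ := e _ _ _ _ (hSW s h1.1.1 _) (hSW s' h2.1.1 _) e2
    have e5 : a = a' := funext fun i => (e1 i).2
    have e6 : s = s' := by
      funext i
      refine Fin.lastCases ?_ (fun i => ?_) i
      · exact e3
      · exact (e1 i).1
    subst e5 e6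
    have e7 : t = t' := by omega
    rw [e7]
  have hcard : (P.image Φ).card = LS (k + 1) (n + 1) W l * A ^ n * B := by
    rw [Finset.card_image_of_injOn hinj, hP, Finset.card_product, Finset.card_product,
      Fintype.card_piFinset, Finset.card_range, Finset.prod_const, Finset.card_range,
      Finset.card_univ, Fintype.card_fin]
    rfl
  rw [← hcard]
  refine avg_ge (k + 1) (n + 1) l W J (by omega) hJ _ ?_
  intro u hu
  obtain ⟨⟨⟨s, a⟩, t⟩, hp, rfl⟩ := Finset.mem_image.1 hu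
  rw [hP, Finset.mem_product, Finset.mem_product] at hp
  obtain ⟨⟨hs, ha⟩, ht⟩ := hp
  have hql := hq s hs a ha
  obtain ⟨k1, k2⟩ := hb0 (s (Fin.last n)) (l - q s a) (hSW s hs _) (Nat.sub_le _ _)
  have k3 := k2 t (Finset.mem_range.1 ht)
  have k4 : (s (Fin.last n) + W * b0 (s (Fin.last n)) (l - q s a)) ^ (k + 1) ≤
      (s (Fin.last n) + W * (b0 (s (Fin.last n)) (l - q s a) + t)) ^ (k + 1) := by
    refine Nat.pow_le_pow_left ?_ _
    rw [mul_add]
    omega
  have hsum : ∑ i, Φ ((s, a), t) i ^ (k + 1) = q s a +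
      (s (Fin.last n) + W * (b0 (s (Fin.last n)) (l - q s a) + t)) ^ (k + 1) := by
    rw [Fin.sum_univ_castSucc]
    simp only [Φ, Fin.snoc_castSucc, Fin.snoc_last]
    rfl
  have hmod : (∑ i, Φ ((s, a), t) i ^ (k + 1)) ≡ l [MOD W] := by
    refine Nat.ModEq.trans ?_ (Finset.mem_filter.1 hs).2
    rw [hsum, Fin.sum_univ_castSucc]
    refine Nat.ModEq.add ?_ ?_
    · show (∑ i : Fin n, (s i.castSucc + W * a i) ^ (k + 1)) ≡ _ [MOD W]
      unfold Nat.ModEq
      rw [Finset.sum_nat_mod, Finset.sum_nat_mod (f := fun i : Fin n => s i.castSucc ^ (k + 1))]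
      congr 1
      refine Finset.sum_congr rfl fun i _ => ?_
      rw [Nat.pow_mod, Nat.add_mul_mod_self_left, ← Nat.pow_mod]
    · unfold Nat.ModEq
      rw [Nat.pow_mod, Nat.add_mul_mod_self_left, ← Nat.pow_mod]
  rw [hsum] at hmod ⊢
  have hge : l ≤ q s a +
      (s (Fin.last n) + W * (b0 (s (Fin.last n)) (l - q s a) + t)) ^ (k + 1) := by omega
  have hle : q s a +
      (s (Fin.last n) + W * (b0 (s (Fin.last n)) (l - q s a) + t)) ^ (k + 1) ≤ l + J * W := by
    omega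
  generalize q s a +
      (s (Fin.last n) + W * (b0 (s (Fin.last n)) (l - q s a) + t)) ^ (k + 1) = v at hmod hge hle ⊢
  obtain ⟨w, hw⟩ := (Nat.modEq_iff_dvd' hge).1 hmod.symm
  refine ⟨w, ?_, ?_⟩
  · have h9 : W * w ≤ W * J := by
      rw [← hw, mul_comm W J]
      omega
    exact Nat.le_of_mul_le_mul_left h9 (by omega)
  · rw [mul_comm w W, ← hw]
    omega

theorem half_le_floor (x : ℝ) (hx : 1 ≤ x) : x / 2 ≤ (⌊x⌋₊ : ℝ) := by
  have h1 : (1 : ℝ) ≤ (⌊x⌋₊ : ℝ) := by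
    exact_mod_cast (Nat.one_le_floor_iff x).2 hx
  have h2 := Nat.lt_floor_add_one x
  linarith

end L4

open L4 in
/-- lower bound for the average -/
theorem ks_L4 : T_L4 := by
  intro k d hk hd
  obtain ⟨K, rfl⟩ : ∃ K, k = K + 1 := ⟨k - 1, by omega⟩
  obtain ⟨n, rfl⟩ : ∃ n, d = n + 1 := ⟨d - 1, by omega⟩
  refine ⟨1 / ((2 * ((n : ℝ) + 1)) ^ n * (6 * ((K : ℝ) + 1) * 2 ^ K)), by positivity, ?_⟩
  intro W η hW hη hη1
  have hW1 : (1 : ℝ) ≤ W := by exact_mod_cast hW
  have hn0 : (0 : ℝ) ≤ n := Nat.cast_nonneg n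
  have hK0 : (0 : ℝ) ≤ K := Nat.cast_nonneg K
  set L0 : ℝ := 2 * W * ((n : ℝ) + 1) * ((K : ℝ) + 1) * 2 ^ K / η with hL0
  have h2K : (1 : ℝ) ≤ 2 ^ K := one_le_pow₀ (by norm_num)
  have hL0pos : 0 < L0 := by positivity
  have hk1 : (K : ℝ) + 1 ≠ 0 := by positivity
  refine ⟨⌈L0 ^ (K + 1)⌉₊, fun l hl => ?_⟩
  have hl1 : L0 ^ (K + 1) ≤ l := (Nat.le_ceil _).trans (by exact_mod_cast hl)
  set L : ℝ := (l : ℝ) ^ (1 / ((K : ℝ) + 1)) with hL
  have hLk : L ^ (K + 1) = l := by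
    rw [hL, ← Real.rpow_natCast, ← Real.rpow_mul (Nat.cast_nonneg l)]
    push_cast
    rw [one_div_mul_cancel hk1, Real.rpow_one]
  have hLge : L0 ≤ L := by
    refine le_of_pow_le_pow_left₀ (n := K + 1) (by omega) (by positivity) ?_
    rw [hLk]
    exact hl1
  have hLpos : 0 < L := hL0pos.trans_le hLge
  -- consequences of the size of `L`
  have hb1 : ((n : ℝ) + 1) * W ≤ L := by
    refine le_trans ?_ hLge
    rw [hL0, le_div_iff₀ hη]
    have e1 : ((n : ℝ) + 1) * W * η ≤ ((n : ℝ) + 1) * W * 1 :=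
      mul_le_mul_of_nonneg_left hη1 (by positivity)
    have e2 : ((n : ℝ) + 1) * W * 1 ≤ ((n : ℝ) + 1) * W * (2 * (((K : ℝ) + 1) * 2 ^ K)) := by
      refine mul_le_mul_of_nonneg_left ?_ (by positivity)
      nlinarith
    linarith
  have hb2 : 2 * W * (((K : ℝ) + 1) * 2 ^ K) ≤ η * L := by
    have e1 : L0 * η = 2 * W * ((n : ℝ) + 1) * ((K : ℝ) + 1) * 2 ^ K := by
      rw [hL0, div_mul_cancel₀ _ hη.ne']
    have e2 := mul_le_mul_of_nonneg_right hLge hη.le
    rw [e1] at e2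
    have e3 : 0 ≤ 2 * (W : ℝ) * n * (((K : ℝ) + 1) * 2 ^ K) := by positivity
    nlinarith
  have hL1 : 1 ≤ L := by
    refine le_trans ?_ hb1
    nlinarith
  set J : ℕ := ⌊η * l / W⌋₊ with hJ
  have hJle : (J : ℝ) ≤ l / W := by
    refine (Nat.floor_le (by positivity)).trans ?_
    refine div_le_div_of_nonneg_right ?_ (by linarith)
    have : (0 : ℝ) ≤ l := Nat.cast_nonneg l
    nlinarith
  have hJl : J * W ≤ l := by
    have h1 : (J : ℝ) * W ≤ l := by
      rw [le_div_iff₀ (by linarith)] at hJle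
      exact hJle
    exact_mod_cast h1
  -- lower bound for `J`
  set D : ℝ := ((K : ℝ) + 1) * (2 * L) ^ K with hD
  have hDpos : 0 < D := by positivity
  have hx : 2 * D ≤ η * l / W := by
    rw [le_div_iff₀ (by linarith), ← hLk, hD, mul_pow]
    have hLK : 0 ≤ L ^ K := by positivity
    calc 2 * (((K : ℝ) + 1) * (2 ^ K * L ^ K)) * W
        = (2 * W * (((K : ℝ) + 1) * 2 ^ K)) * L ^ K := by ring
      _ ≤ (η * L) * L ^ K := mul_le_mul_of_nonneg_right hb2 hLK
      _ = η * L ^ (K + 1) := by ring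
  have hD1 : 1 ≤ D := by
    have e1 : (1 : ℝ) ≤ (2 * L) ^ K := one_le_pow₀ (by linarith)
    rw [hD]
    nlinarith
  have hJge : D ≤ J := by
    have := half_le_floor (η * l / W) (by linarith)
    linarith
  set A : ℕ := ⌊L / (((n : ℝ) + 1) * W)⌋₊ with hA
  set B : ℕ := ⌊(J : ℝ) / D⌋₊ with hB
  have hnW : 0 < ((n : ℝ) + 1) * W := by positivity
  have hAle : ((n : ℝ) + 1) * W * A ≤ L := by
    have := Nat.floor_le (div_nonneg hLpos.le hnW.le)
    rw [le_div_iff₀ hnW] at this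
    linarith
  have hBle : D * B ≤ J := by
    have := Nat.floor_le (div_nonneg (Nat.cast_nonneg (α := ℝ) J) hDpos.le)
    rw [le_div_iff₀ hDpos] at this
    linarith
  have hWB : (W : ℝ) * B ≤ L := by
    have e1 : D * B * W ≤ L ^ (K + 1) := by
      rw [hLk]
      have := mul_le_mul_of_nonneg_right (hBle.trans hJle) (Nat.cast_nonneg (α := ℝ) W)
      rwa [div_mul_cancel₀ _ (by linarith : (W : ℝ) ≠ 0)] at this
    have e2 : L ^ K ≤ D := by
      rw [hD, mul_pow]
      have hLK : 0 ≤ L ^ K := by positivity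
      have e3 : (1 : ℝ) ≤ ((K : ℝ) + 1) * 2 ^ K := by nlinarith
      calc L ^ K = 1 * L ^ K := (one_mul _).symm
        _ ≤ (((K : ℝ) + 1) * 2 ^ K) * L ^ K := mul_le_mul_of_nonneg_right e3 hLK
        _ = ((K : ℝ) + 1) * (2 ^ K * L ^ K) := by ring
    have e4 : L ^ K * ((W : ℝ) * B) ≤ L ^ K * L := by
      calc L ^ K * ((W : ℝ) * B) ≤ D * ((W : ℝ) * B) :=
            mul_le_mul_of_nonneg_right e2 (by positivity)
        _ = D * B * W := by ring
        _ ≤ L ^ (K + 1) := e1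
        _ = L ^ K * L := pow_succ L K
    exact le_of_mul_le_mul_left e4 (by positivity)
  have hB2 : ((K : ℝ) + 1) * B * (2 * L) ^ K ≤ J := by
    rw [hD] at hBle
    linarith
  have hcount := counting K n l W J A B L hW hJl hLpos.le hLk hAle hWB hB2
  -- lower bounds for `A` and `B`
  have hAge : L / (2 * ((n : ℝ) + 1) * W) ≤ A := by
    have := half_le_floor (L / (((n : ℝ) + 1) * W)) (by
      rw [le_div_iff₀ hnW, one_mul]
      exact hb1)
    refine le_trans (le_of_eq ?_) this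
    field_simp
  have hBge : J / (2 * D) ≤ B := by
    have := half_le_floor ((J : ℝ) / D) (by
      rw [le_div_iff₀ hDpos, one_mul]
      exact hJge)
    refine le_trans (le_of_eq ?_) this
    field_simp
  have hJ1 : 1 ≤ (J : ℝ) := hD1.trans hJge
  set S : ℝ := (LS (K + 1) (n + 1) W l : ℝ) with hS
  have hS0 : 0 ≤ S := Nat.cast_nonneg _
  have hpow : (L / (2 * ((n : ℝ) + 1) * W)) ^ n ≤ (A : ℝ) ^ n :=
    pow_le_pow_left₀ (by positivity) hAge n
  have h3 : S * (L / (2 * ((n : ℝ) + 1) * W)) ^ n * (J / (2 * D)) ≤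
      (3 * (J : ℝ)) * AvN (K + 1) (n + 1) l W J := by
    have hAv : 0 ≤ AvN (K + 1) (n + 1) l W J := by
      unfold AvN
      positivity
    calc S * (L / (2 * ((n : ℝ) + 1) * W)) ^ n * (J / (2 * D))
        ≤ S * (A : ℝ) ^ n * B := by
          refine mul_le_mul ?_ hBge (by positivity) (by positivity)
          exact mul_le_mul_of_nonneg_left hpow hS0
      _ ≤ (2 * (J : ℝ) + 1) * AvN (K + 1) (n + 1) l W J := by
          refine le_trans (le_of_eq ?_) hcount
          push_cast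
          rfl
      _ ≤ (3 * (J : ℝ)) * AvN (K + 1) (n + 1) l W J :=
          mul_le_mul_of_nonneg_right (by linarith) hAv
  have h4 : (l : ℝ) ^ ((((n + 1 : ℕ) : ℝ) - ((K + 1 : ℕ) : ℝ)) / ((K + 1 : ℕ) : ℝ)) =
      L ^ n / L ^ K := by
    rw [← Real.rpow_natCast L n, ← Real.rpow_natCast L K, ← Real.rpow_sub hLpos, hL,
      ← Real.rpow_mul (Nat.cast_nonneg l)]
    congr 1
    push_cast
    field_simp
    ring
  rw [h4, Nat.add_sub_cancel]
  have h5 : 1 / ((2 * ((n : ℝ) + 1)) ^ n * (6 * ((K : ℝ) + 1) * 2 ^ K)) * (L ^ n / L ^ K) *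
      (S / (W : ℝ) ^ n) * (3 * (J : ℝ)) =
      S * (L / (2 * ((n : ℝ) + 1) * W)) ^ n * (J / (2 * D)) := by
    rw [hD, mul_pow 2 L K, div_pow, mul_pow (2 * ((n : ℝ) + 1)) (W : ℝ) n]
    have g1 : (W : ℝ) ^ n ≠ 0 := by positivity
    have g2 : L ^ K ≠ 0 := by positivity
    have g3 : (2 * ((n : ℝ) + 1)) ^ n ≠ 0 := by positivity
    field_simp
    ring
  rw [← h5] at h3
  have h6 : 0 < 3 * (J : ℝ) := by linarith
  rw [mul_comm (3 * (J : ℝ)) (AvN (K + 1) (n + 1) l W J)] at h3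
  exact le_of_mul_le_mul_right h3 h6

end Pool.Agent.H33.KS
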