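import Pool.Agent.H98.KS.Targets4

/-!
# MP_ff41bc_an: the number of lattice points as an integral
-/

open scoped BigOperators

noncomputable section

namespace Pool.Agent.H33.KS

open Pool.Agent.H98.KS

theorem ee_add (x y : ℝ) : ee (x + y) = ee x * ee y := by
  unfold ee
  rw [← Complex.exp_add]
  congr 1
  push_cast
  ring

theorem ee_zero : ee 0 = 1 := by
  unfold ee
  simp

theorem ee_sum {ι : Type*} (s : Finset ι) (f : ι → ℝ) : ee (∑ i ∈ s, f i) = ∏ i ∈ s, ee (f i) := by
  classical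
  induction s using Finset.induction_on with
  | empty => simp [ee_zero]
  | insert a s ha ih => rw [Finset.sum_insert ha, Finset.prod_insert ha, ee_add, ih]

theorem ee_cont : Continuous ee := by
  unfold ee
  fun_prop

/-- orthogonality -/
theorem ee_int (n : ℤ) : ∫ θ in (0 : ℝ)..1, ee (θ * n) = if n = 0 then 1 else 0 := by
  split_ifs with h
  · subst h
    simp [ee_zero]
  · have hc : (2 * Real.pi * n * Complex.I : ℂ) ≠ 0 := by
      have hn : (n : ℂ) ≠ 0 := by exact_mod_cast h
      have hpi : (Real.pi : ℂ) ≠ 0 := by exact_mod_cast Real.pi_ne_zero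
      exact mul_ne_zero (mul_ne_zero (mul_ne_zero two_ne_zero hpi) hn) Complex.I_ne_zero
    have h1 : ∀ θ : ℝ, ee (θ * n) = Complex.exp ((2 * Real.pi * n * Complex.I) * θ) := by
      intro θ
      unfold ee
      congr 1
      push_cast
      ring
    simp_rw [h1]
    rw [integral_exp_mul_complex hc]
    have h2 : Complex.exp (2 * Real.pi * n * Complex.I * ((1 : ℝ) : ℂ)) = 1 := by
      rw [Complex.exp_eq_one_iff]
      exact ⟨n, by push_cast; ring⟩
    rw [h2]
    simp

/-- `NN` as an integral -/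
theorem ks_NI : T_NI := by
  intro k d X m hk hm
  classical
  set P : Finset (Fin d → ℤ) := Fintype.piFinset fun _ : Fin d => Finset.Icc (-(X : ℤ)) X with hP
  have h1 : ∀ θ : ℝ, ee (-(θ * m)) * (Ss k X θ 0) ^ d =
      ∑ y ∈ P, ee (θ * (((pw k y : ℤ) - (m : ℤ) : ℤ) : ℝ)) := by
    intro θ
    have e1 : (Ss k X θ 0) ^ d = ∏ _i : Fin d, Ss k X θ 0 := by
      rw [Finset.prod_const, Finset.card_univ, Fintype.card_fin]
    rw [e1]
    unfold Ss
    rw [Finset.prod_univ_sum, Finset.mul_sum]
    refine Finset.sum_congr rfl fun y _ => ?_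
    rw [← ee_sum, ← ee_add]
    congr 1
    have e2 : (((pw k y : ℤ) - (m : ℤ) : ℤ) : ℝ) = (pw k y : ℝ) - m := by push_cast; rfl
    have e3 : (pw k y : ℝ) = ∑ i, (((y i).natAbs ^ k : ℕ) : ℝ) := by
      unfold pw
      rw [Nat.cast_sum]
    rw [e2, e3]
    simp only [mul_zero, sub_zero]
    rw [← Finset.mul_sum]
    ring
  have h2 : ∀ y ∈ P, ∫ θ in (0 : ℝ)..1, ee (θ * (((pw k y : ℤ) - (m : ℤ) : ℤ) : ℝ)) =
      if pw k y = m then 1 else 0 := by
    intro y _
    rw [ee_int]
    refine if_congr ?_ rfl rfl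
    rw [sub_eq_zero]
    exact Nat.cast_inj
  simp_rw [h1]
  have hint : ∀ y ∈ P, IntervalIntegrable
      (fun θ : ℝ => ee (θ * (((pw k y : ℤ) - (m : ℤ) : ℤ) : ℝ))) MeasureTheory.volume 0 1 :=
    fun y _ => (ee_cont.comp (continuous_id.mul continuous_const)).intervalIntegrable _ _
  rw [intervalIntegral.integral_finsetSum hint]
  rw [Finset.sum_congr rfl h2, ← Finset.sum_filter, Finset.sum_const, nsmul_eq_mul, mul_one]
  congr 1
  unfold NN
  rw [← Set.ncard_coe_finset]
  congr 1
  ext y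
  simp only [Finset.coe_filter, Set.mem_ofPred_eq]
  constructor
  · intro hy
    refine ⟨?_, hy⟩
    rw [hP, Fintype.mem_piFinset]
    intro i
    have h3 : (y i).natAbs ^ k ≤ X ^ k := by
      refine le_trans ?_ hm
      rw [← hy]
      exact Finset.single_le_sum (f := fun i => (y i).natAbs ^ k) (fun _ _ => Nat.zero_le _)
        (Finset.mem_univ i)
    have h4 : (y i).natAbs ≤ X := (Nat.pow_le_pow_iff_left (by omega)).1 h3
    rw [Finset.mem_Icc]
    omega
  · exact fun h => h.2

end Pool.Agent.H33.KS
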