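import Pool.Agent.H98.KS.Targets5

/-!
# MP_ff41bc_an: translation of the maximal function of an indicator function
-/

open scoped BigOperators ENNReal NNReal

noncomputable section

namespace Pool.Agent.H33.KS

open Pool.Agent.H98.KS

theorem pw_cast (k : ℕ) {d : ℕ} (m : Fin d → ℤ) : (pw k m : ℝ) = ∑ i, |(m i : ℝ)| ^ k := by
  unfold pw
  push_cast
  refine Finset.sum_congr rfl fun i _ => ?_
  rw [Nat.cast_natAbs, Int.cast_abs]

theorem finite_pw (k d l : ℕ) (hk : 1 ≤ k) : {y : Fin d → ℤ | pw k y = l}.Finite := by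
  refine Set.Finite.subset (Finset.finite_toSet (Fintype.piFinset
    fun _ : Fin d => Finset.Icc (-(l : ℤ)) l)) fun y hy => ?_
  rw [Finset.mem_coe, Fintype.mem_piFinset]
  intro i
  have h1 : (y i).natAbs ^ k ≤ l := by
    have h2 : pw k y = l := hy
    rw [← h2]
    exact Finset.single_le_sum (f := fun i => (y i).natAbs ^ k) (fun _ _ => Nat.zero_le _)
      (Finset.mem_univ i)
  have h2 : (y i).natAbs ≤ l := (Nat.le_self_pow (by omega) _).trans h1
  rw [Finset.mem_Icc]
  omega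

/-- the average of an indicator function -/
theorem avg_eq (k d : ℕ) (hk : 1 ≤ k) (F : Finset (Fin d → ℤ)) (x : Fin d → ℤ) (r : ℝ)
    (hr : r ∈ Rad k d) : ∃ l : ℕ, 1 ≤ l ∧ 0 < NN k d l ∧ cnt k F x l ≤ NN k d l ∧
      sphAvg k d r (Set.indicator (F : Set (Fin d → ℤ)) (fun _ => 1)) x =
        (cnt k F x l : ℂ) / NN k d l := by
  classical
  obtain ⟨hr0, m0, hm0⟩ := hr
  have h0 : (pw k m0 : ℝ) = r ^ k := (pw_cast k m0).trans hm0
  set l := pw k m0 with hl
  have hS : Sph k d r = {m : Fin d → ℤ | pw k m = l} := by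
    ext m
    unfold Sph
    rw [Set.mem_ofPred_eq, Set.mem_ofPred_eq, ← pw_cast, ← h0]
    exact Nat.cast_inj
  have hl1 : 1 ≤ l := by
    by_contra h
    have h1 : l = 0 := by omega
    rw [h1] at h0
    have := pow_pos hr0 k
    simp at h0
    linarith
  have hfin := finite_pw k d l hk
  have hNN : NN k d l = hfin.toFinset.card := Set.ncard_eq_toFinset_card _ hfin
  have hpos : 0 < NN k d l := by
    rw [hNN, Finset.card_pos]
    exact ⟨m0, hfin.mem_toFinset.2 rfl⟩
  have hcnt : cnt k F x l = (hfin.toFinset.filter fun y => x - y ∈ F).card := by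
    unfold cnt
    refine Finset.card_bij (fun y _ => x - y) ?_ ?_ ?_
    · intro y hy
      rw [Finset.mem_filter] at hy ⊢
      refine ⟨hfin.mem_toFinset.2 hy.2, ?_⟩
      rw [sub_sub_cancel]
      exact hy.1
    · intro y _ z _ h
      exact sub_right_inj.1 h
    · intro y hy
      rw [Finset.mem_filter] at hy
      refine ⟨x - y, ?_, sub_sub_cancel x y⟩
      rw [Finset.mem_filter]
      refine ⟨hy.2, ?_⟩
      rw [sub_sub_cancel]
      exact hfin.mem_toFinset.1 hy.1
  refine ⟨l, hl1, hpos, ?_, ?_⟩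
  · rw [hcnt, hNN]
    exact Finset.card_filter_le _ _
  · unfold sphAvg
    rw [hS]
    have h1 : (∑ᶠ y ∈ {m : Fin d → ℤ | pw k m = l},
        Set.indicator (F : Set (Fin d → ℤ)) (fun _ => (1 : ℂ)) (x - y)) = (cnt k F x l : ℂ) := by
      rw [finsum_mem_eq_finite_toFinset_sum _ hfin, hcnt, Finset.card_filter]
      push_cast
      refine Finset.sum_congr rfl fun y _ => ?_
      rw [Set.indicator_apply]
      simp only [Finset.mem_coe]
    rw [h1]
    show 1 / ((NN k d l : ℕ) : ℂ) * _ = _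
    ring

/-- translation to `cnt` -/
theorem ks_Z0 : T_Z0 := by
  intro k d F x t hk
  have key : ∀ r ∈ Rad k d, ∃ l : ℕ, 1 ≤ l ∧ 0 < NN k d l ∧ cnt k F x l ≤ NN k d l ∧
      ‖sphAvg k d r (Set.indicator (F : Set (Fin d → ℤ)) (fun _ => 1)) x‖ₑ =
        ENNReal.ofReal ((cnt k F x l : ℝ) / NN k d l) := by
    intro r hr
    obtain ⟨l, h1, h2, h3, h4⟩ := avg_eq k d hk F x r hr
    refine ⟨l, h1, h2, h3, ?_⟩
    rw [h4, ← ofReal_norm]
    congr 1
    rw [norm_div, Complex.norm_natCast, Complex.norm_natCast]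
  constructor
  · unfold maxOp
    refine iSup₂_le fun r hr => ?_
    obtain ⟨l, h1, h2, h3, h4⟩ := key r hr
    rw [h4, ENNReal.ofReal_le_one]
    have h5 : (0 : ℝ) < NN k d l := by exact_mod_cast h2
    rw [div_le_one h5]
    exact_mod_cast h3
  · intro ht
    unfold maxOp at ht
    obtain ⟨r, hr⟩ := lt_iSup_iff.1 ht
    obtain ⟨hr1, hr2⟩ := lt_iSup_iff.1 hr
    obtain ⟨l, h1, h2, h3, h4⟩ := key r hr1
    rw [h4] at hr2
    refine ⟨l, h1, ?_⟩
    have h5 : (0 : ℝ) < NN k d l := by exact_mod_cast h2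
    rw [← ENNReal.ofReal_coe_nnreal] at hr2
    have h6 := (ENNReal.ofReal_lt_ofReal_iff_of_nonneg t.2).1 hr2
    rwa [lt_div_iff₀ h5] at h6

end Pool.Agent.H33.KS
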