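import Pool.Agent.H98.KS.Targets5

/-!
# MP_ff41bc_an: sums of the maximal function over finite sets
-/

open scoped BigOperators ENNReal NNReal

noncomputable section

namespace Pool.Agent.H33.KS

open Pool.Agent.H98.KS

theorem sum_rpow_le (a : ℝ) (ha0 : 0 ≤ a) (ha1 : a < 1) (m : ℕ) :
    ∑ i ∈ Finset.range m, ((i : ℝ) + 1) ^ (-a) ≤ (m : ℝ) ^ (1 - a) / (1 - a) := by
  have h1 : 0 < 1 - a := by linarith
  induction m with
  | zero => simp [Real.zero_rpow h1.ne']
  | succ m ih =>
    rw [Finset.sum_range_succ]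
    have hm : (0 : ℝ) < (m : ℝ) + 1 := by positivity
    have hb := rpow_one_add_le_one_add_mul_self (s := -(1 / ((m : ℝ) + 1))) (p := 1 - a)
      (by
        rw [neg_le_neg_iff, div_le_one hm]
        have : (0 : ℝ) ≤ m := Nat.cast_nonneg m
        linarith) h1.le (by linarith)
    have e1 : (1 : ℝ) + -(1 / ((m : ℝ) + 1)) = m / (m + 1) := by
      field_simp
      ring
    rw [e1, Real.div_rpow (Nat.cast_nonneg m) hm.le] at hb
    have hp : 0 < ((m : ℝ) + 1) ^ (1 - a) := Real.rpow_pos_of_pos hm _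
    rw [div_le_iff₀ hp] at hb
    have e2 : ((m : ℝ) + 1) ^ (-a) = ((m : ℝ) + 1) ^ (1 - a) / (m + 1) := by
      rw [← Real.rpow_sub_one hm.ne']
      congr 1
      ring
    push_cast
    rw [e2]
    refine (add_le_add ih le_rfl).trans ?_
    rw [div_add' _ _ _ h1.ne', div_le_div_iff_of_pos_right h1]
    calc (m : ℝ) ^ (1 - a) + ((m : ℝ) + 1) ^ (1 - a) / (m + 1) * (1 - a)
        ≤ (1 + (1 - a) * -(1 / ((m : ℝ) + 1))) * ((m : ℝ) + 1) ^ (1 - a) +
          ((m : ℝ) + 1) ^ (1 - a) / (m + 1) * (1 - a) := by linarith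
      _ = ((m : ℝ) + 1) ^ (1 - a) := by ring

/-- the bound for the values of a function with small level sets -/
theorem sum_level {α : Type*} (G : α → ℝ) (D a : ℝ) (hD : 0 ≤ D) (ha : 0 < a)
    (h : ∀ (X : Finset α) (t : ℝ), 0 < t → (∀ x ∈ X, t < G x) → (X.card : ℝ) * t ^ (1 / a) ≤ D) :
    ∀ (m : ℕ) (X : Finset α), X.card = m →
      ∑ x ∈ X, G x ≤ D ^ a * ∑ i ∈ Finset.range m, ((i : ℝ) + 1) ^ (-a) := by
  classical
  intro m
  induction m with
  | zero =>
    intro X hX
    rw [Finset.card_eq_zero] at hX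
    simp [hX]
  | succ m ih =>
    intro X hX
    have hne : X.Nonempty := by
      rw [← Finset.card_pos]; omega
    obtain ⟨x0, hx0, hmin⟩ := X.exists_min_image G hne
    have hm : (0 : ℝ) < (m : ℝ) + 1 := by positivity
    have h1 : G x0 ≤ D ^ a * ((m : ℝ) + 1) ^ (-a) := by
      refine le_of_forall_lt fun t ht => ?_
      rcases le_or_gt t 0 with h0 | h0
      · rcases h0.lt_or_eq with h3 | h3
        · exact h3.trans_le (by positivity)
        · subst h3
          have h4 : 0 < G x0 / 2 := by linarith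
          have h5 := h X (G x0 / 2) h4 (fun x hx => lt_of_lt_of_le (by linarith) (hmin x hx))
          have h6 : 0 < D := by
            refine lt_of_lt_of_le ?_ h5
            rw [hX]
            push_cast
            positivity
          positivity
      · obtain ⟨t', ht1, ht2⟩ := exists_between ht
        have ht0 : 0 < t' := h0.trans ht1
        have h5 := h X t' ht0 (fun x hx => lt_of_lt_of_le ht2 (hmin x hx))
        rw [hX] at h5
        push_cast at h5
        have h6 : t' ^ (1 / a) ≤ D / ((m : ℝ) + 1) := by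
          rw [le_div_iff₀ hm, mul_comm]
          exact h5
        have h7 := Real.rpow_le_rpow (by positivity) h6 ha.le
        rw [← Real.rpow_mul ht0.le, one_div_mul_cancel ha.ne', Real.rpow_one,
          Real.div_rpow hD hm.le] at h7
        refine lt_of_lt_of_le ht1 (h7.trans (le_of_eq ?_))
        rw [Real.rpow_neg hm.le]
        rfl
    have h2 := ih (X.erase x0) (by rw [Finset.card_erase_of_mem hx0, hX]; rfl)
    rw [← Finset.add_sum_erase X G hx0, Finset.sum_range_succ, mul_add]
    linarith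

/-- sums over finite sets -/
theorem ks_ZA (hZ0 : T_Z0) : T_ZA := by
  intro k d C hk hkd hC
  obtain ⟨hC0, hC⟩ := hC
  have hd0 : (0 : ℝ) < d := by exact_mod_cast (by omega : 0 < d)
  have hkd' : (k : ℝ) < d := by exact_mod_cast hkd
  have hk0 : (3 : ℝ) ≤ k := by exact_mod_cast hk
  set a : ℝ := ((d : ℝ) - k) / d with ha
  have ha0 : 0 < a := div_pos (by linarith) hd0
  have ha1 : a < 1 := by
    rw [ha, div_lt_one hd0]
    linarith
  have h1a : 0 < 1 - a := by linarith
  have hinv : (d : ℝ) / ((d : ℝ) - k) = 1 / a := by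
    rw [ha, one_div_div]
  refine ⟨Real.toNNReal (C ^ a / (1 - a)), fun E X => ?_⟩
  set g : (Fin d → ℤ) → ℝ≥0∞ :=
    maxOp k d (Set.indicator (E : Set (Fin d → ℤ)) (fun _ => 1)) with hg
  have hg1 : ∀ x, g x ≤ 1 := fun x => (hZ0 k d E x 0 (by omega)).1
  have hgt : ∀ x, g x ≠ ∞ := fun x => ne_top_of_le_ne_top ENNReal.one_ne_top (hg1 x)
  have hlev : ∀ (X : Finset (Fin d → ℤ)) (t : ℝ), 0 < t → (∀ x ∈ X, t < (g x).toReal) →
      (X.card : ℝ) * t ^ (1 / a) ≤ C * E.card := by
    intro X t ht hX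
    rcases X.eq_empty_or_nonempty with rfl | ⟨x0, hx0⟩
    · simp only [Finset.card_empty, Nat.cast_zero, zero_mul]
      positivity
    have ht1 : t ≤ 1 := by
      have h2 : (g x0).toReal ≤ 1 := by
        have := ENNReal.toReal_mono ENNReal.one_ne_top (hg1 x0)
        simpa using this
      linarith [hX x0 hx0]
    have h3 := hC E X t ht ht1 (fun x hx => by
      have h4 := (hZ0 k d E x (Real.toNNReal t) (by omega)).2 (by
        rw [← hg]
        rw [← ENNReal.ofReal_toReal (hgt x)]
        exact (ENNReal.ofReal_lt_ofReal_iff_of_nonneg ht.le).2 (hX x hx))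
      rw [Real.coe_toNNReal t ht.le] at h4
      exact h4)
    rw [hinv, Real.rpow_neg ht.le] at h3
    have h6 : 0 < t ^ (1 / a) := Real.rpow_pos_of_pos ht _
    calc (X.card : ℝ) * t ^ (1 / a) ≤ (C * (t ^ (1 / a))⁻¹ * E.card) * t ^ (1 / a) :=
          mul_le_mul_of_nonneg_right h3 h6.le
      _ = C * E.card := by
          field_simp
  have hS := sum_level (fun x => (g x).toReal) (C * E.card) a (by positivity) ha0 hlev X.card X rfl
  have hS2 : ∑ x ∈ X, (g x).toReal ≤
      C ^ a / (1 - a) * ((X.card : ℝ) ^ (1 - a) * (E.card : ℝ) ^ a) := by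
    refine hS.trans ?_
    have h7 := mul_le_mul_of_nonneg_left (sum_rpow_le a ha0.le ha1 X.card)
      (Real.rpow_nonneg (mul_nonneg hC0.le (Nat.cast_nonneg E.card)) a)
    refine h7.trans (le_of_eq ?_)
    rw [Real.mul_rpow hC0.le (Nat.cast_nonneg _)]
    ring
  calc ∑ x ∈ X, g x = ENNReal.ofReal (∑ x ∈ X, (g x).toReal) := by
        rw [ENNReal.ofReal_sum_of_nonneg fun x _ => ENNReal.toReal_nonneg]
        exact Finset.sum_congr rfl fun x _ => (ENNReal.ofReal_toReal (hgt x)).symm
    _ ≤ ENNReal.ofReal (C ^ a / (1 - a) * ((X.card : ℝ) ^ (1 - a) * (E.card : ℝ) ^ a)) :=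
        ENNReal.ofReal_le_ofReal hS2
    _ = _ := by
        rw [ENNReal.ofReal_mul (by positivity), ENNReal.ofReal_mul (by positivity),
          ← ENNReal.ofReal_rpow_of_nonneg (Nat.cast_nonneg _) h1a.le,
          ← ENNReal.ofReal_rpow_of_nonneg (Nat.cast_nonneg _) ha0.le,
          ENNReal.ofReal_natCast, ENNReal.ofReal_natCast, mul_assoc]
        rfl

end Pool.Agent.H33.KS
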